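import Pool.Agent.H18.TD.Targets

set_option autoImplicit false

open Polynomial Module Filter Topology Pool.Agent.H18.TD
open Pool.Agent.H72.HR (T_PIG)

namespace Pool.Agent.H64.TD1

section bounds

variable (x : ℝ) (M : ℕ)

/-- the basic quantity -/
noncomputable def La : ℝ := x ^ M * (1 + Real.log x)

theorem La_ge (hx : 1 ≤ x) : x ^ M ≤ La x M ∧ 1 ≤ La x M ∧ 0 ≤ Real.log x := by
  have h1 : 0 ≤ Real.log x := Real.log_nonneg hx
  have h2 : 1 ≤ x ^ M := one_le_pow₀ hx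
  unfold La
  refine ⟨by nlinarith, by nlinarith, h1⟩

theorem pow_le_La (hx : 1 ≤ x) (E : ℕ) : x ^ E ≤ Real.exp (E * La x M) := by
  obtain ⟨h1, h2, h3⟩ := La_ge x M hx
  have h4 : Real.log x ≤ La x M := by
    unfold La
    have : 1 ≤ x ^ M := one_le_pow₀ hx
    nlinarith
  have h5 : x ^ E = Real.exp (E * Real.log x) := by
    rw [mul_comm, Real.exp_mul, Real.exp_log (by linarith), Real.rpow_natCast]
  rw [h5]
  exact Real.exp_le_exp.mpr (mul_le_mul_of_nonneg_left h4 (by positivity))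

theorem npow_le_La (hx : 1 ≤ x) (c0 : ℝ) (hc0 : 1 ≤ c0) (q : ℕ) (n : ℕ) (hn : (n : ℝ) ≤ x ^ M) :
    (c0 * x ^ q) ^ n ≤ Real.exp ((Real.log c0 + q) * La x M) := by
  obtain ⟨h1, h2, h3⟩ := La_ge x M hx
  have hq : 1 ≤ x ^ q := one_le_pow₀ hx
  have hpos : 0 < c0 * x ^ q := by positivity
  have hlc : 0 ≤ Real.log c0 := Real.log_nonneg hc0
  have h5 : (c0 * x ^ q) ^ n = Real.exp (n * (Real.log c0 + q * Real.log x)) := by
    rw [← Real.log_pow, ← Real.log_mul (by positivity) (by positivity), Real.exp_nat_mul,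
      Real.exp_log hpos]
  rw [h5]
  refine Real.exp_le_exp.mpr ?_
  have hq0 : (0:ℝ) ≤ q := by positivity
  calc (n:ℝ) * (Real.log c0 + q * Real.log x) ≤ x ^ M * (Real.log c0 + q * Real.log x) :=
        mul_le_mul_of_nonneg_right hn (by positivity)
    _ ≤ x ^ M * ((Real.log c0 + q) * (1 + Real.log x)) := by
        refine mul_le_mul_of_nonneg_left ?_ (by positivity)
        nlinarith [mul_nonneg hlc h3]
    _ = _ := by unfold La; ring

end bounds

theorem pf_AUX : T_PIG → T_VLP → T_TCB → T_SML → T_GRW → T_AUX := by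
  intro hPIG hVLP hTCB hSML hGRW t r l c X Y a b m M ha hb hab hm hM
  classical
  -- constants
  set C1 : ℝ := 1 + (∑ p, ∑ i, ‖X p i‖) + ∑ i, ∑ j, ‖Y i j‖ with hC1
  have hX : ∀ p i, ‖X p i‖ ≤ C1 := by
    intro p i
    have h1 : ‖X p i‖ ≤ ∑ p, ∑ i, ‖X p i‖ :=
      (Finset.single_le_sum (f := fun i => ‖X p i‖) (fun _ _ => norm_nonneg _)
        (Finset.mem_univ i)).trans (Finset.single_le_sum (f := fun p => ∑ i, ‖X p i‖)
        (fun _ _ => Finset.sum_nonneg fun _ _ => norm_nonneg _) (Finset.mem_univ p))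
    have h2 : 0 ≤ ∑ i, ∑ j, ‖Y i j‖ :=
      Finset.sum_nonneg fun _ _ => Finset.sum_nonneg fun _ _ => norm_nonneg _
    linarith
  have hYb : ∀ i j, ‖Y i j‖ ≤ C1 := by
    intro p i
    have h1 : ‖Y p i‖ ≤ ∑ p, ∑ i, ‖Y p i‖ :=
      (Finset.single_le_sum (f := fun i => ‖Y p i‖) (fun _ _ => norm_nonneg _)
        (Finset.mem_univ i)).trans (Finset.single_le_sum (f := fun p => ∑ i, ‖Y p i‖)
        (fun _ _ => Finset.sum_nonneg fun _ _ => norm_nonneg _) (Finset.mem_univ p))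
    have h2 : 0 ≤ ∑ p, ∑ i, ‖X p i‖ :=
      Finset.sum_nonneg fun _ _ => Finset.sum_nonneg fun _ _ => norm_nonneg _
    linarith
  have hC1' : 1 ≤ C1 := by
    have h1 : 0 ≤ ∑ i, ∑ j, ‖Y i j‖ :=
      Finset.sum_nonneg fun _ _ => Finset.sum_nonneg fun _ _ => norm_nonneg _
    have h2 : 0 ≤ ∑ p, ∑ i, ‖X p i‖ :=
      Finset.sum_nonneg fun _ _ => Finset.sum_nonneg fun _ _ => norm_nonneg _
    linarith
  set c0 : ℝ := 1 + c * C1 * (r + l) with hc0
  have hc0' : 1 ≤ c0 := by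
    have : 0 ≤ (c:ℝ) * C1 * (r + l) := by positivity
    linarith
  set T : ℝ := max 1 ‖t‖ with hT
  have hT1 : 1 ≤ T := le_max_left _ _
  have hTt : ‖t‖ ≤ T := le_max_right _ _
  set K1 : ℝ := Real.log (4 * c0) + (b * m : ℕ) with hK1
  set K2 : ℝ := 4 * c0 * (l * C1) with hK2
  set C3 : ℝ := r * (K1 + K2) + Real.log T with hC3
  set E : ℕ := M * r + a * m * l + M with hE
  set C4 : ℝ := r * ((r + l) * (Real.log (r + l + 1) + M)) with hC4
  set C5 : ℝ := C3 + C4 + E + (2 * r + 6) with hC5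
  have hK10 : 0 ≤ K1 := by
    have : 0 ≤ Real.log (4 * c0) := Real.log_nonneg (by linarith)
    positivity
  have hK20 : 0 ≤ K2 := by positivity
  have hC30 : 0 ≤ C3 := by
    have : 0 ≤ Real.log T := Real.log_nonneg hT1
    positivity
  have hC40 : 0 ≤ C4 := by
    have h0 : (0:ℝ) ≤ r := by positivity
    have h1 : (0:ℝ) ≤ l := by positivity
    have : 0 ≤ Real.log ((r:ℝ) + l + 1) := Real.log_nonneg (by linarith)
    positivity
  obtain ⟨h1, hh13, hGR⟩ := hGRW C5 1
  refine ⟨max h1 (8 * 4 ^ r), fun h hh => ?_⟩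
  have hh1 : h1 ≤ h := le_trans (le_max_left _ _) hh
  have hh2 : 8 * 4 ^ r ≤ h := le_trans (le_max_right _ _) hh
  have hh3 : 3 ≤ h := hh13.trans hh1
  set x : ℝ := (h : ℝ) with hx
  have hx1 : 1 ≤ x := by
    have : (3:ℝ) ≤ x := by rw [hx]; exact_mod_cast hh3
    linarith
  set Λ : ℝ := La x M with hΛ
  obtain ⟨hΛ1, hΛ2, hlog⟩ := La_ge x M hx1
  have hC5Λ : C5 * Λ ≤ x ^ (2 * M + 1) := by
    have h2 := hGR h hh1
    rw [pow_one] at h2
    calc C5 * Λ = x ^ M * (C5 * (1 + Real.log x)) := by rw [hΛ]; unfold La; ring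
      _ ≤ x ^ M * x := mul_le_mul_of_nonneg_left h2 (by positivity)
      _ = x ^ (M + 1) := by ring
      _ ≤ x ^ (2 * M + 1) := pow_le_pow_right₀ hx1 (by omega)
  -- the radius
  set R : ℝ := c0 * x ^ (b * m) with hR
  have hR1 : 1 ≤ R := by
    have : 1 ≤ x ^ (b * m) := one_le_pow₀ hx1
    nlinarith
  have hth : ∀ (ν : Fin l → Fin (h ^ (a * m))) (i : Fin r), ‖th X ν i‖ ≤ l * C1 * x ^ (a * m) := by
    intro ν i
    unfold th
    calc ‖∑ p, ((ν p : ℕ) : ℂ) * X p i‖ ≤ ∑ p, ‖((ν p : ℕ) : ℂ) * X p i‖ := norm_sum_le _ _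
      _ ≤ ∑ _p : Fin l, x ^ (a * m) * C1 := by
          refine Finset.sum_le_sum fun p _ => ?_
          rw [norm_mul, Complex.norm_natCast]
          refine mul_le_mul ?_ (hX p i) (norm_nonneg _) (by positivity)
          rw [hx]
          exact_mod_cast (ν p).2.le
      _ = _ := by
          rw [Finset.sum_const, Finset.card_univ, Fintype.card_fin, nsmul_eq_mul]; ring
  have hMx : x ^ (a * m) * x ^ (b * m) = x ^ M := by
    rw [← pow_add, hM, ← add_mul]
  have hfac : ∀ (w : Un r l (h ^ M) (h ^ (a * m)) (h ^ M)) (i : Fin r),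
      (4 * R) ^ ((w.1 i : ℕ)) * Real.exp (4 * R * ‖th X w.2.1 i‖) ≤
        Real.exp ((K1 + K2) * Λ) := by
    intro w i
    have h2 : (4 * R) ^ ((w.1 i : ℕ)) ≤ Real.exp (K1 * Λ) := by
      have h3 := npow_le_La x M hx1 (4 * c0) (by linarith) (b * m) (w.1 i : ℕ) (by
        rw [hx]; exact_mod_cast (w.1 i).2.le)
      rw [show 4 * c0 * x ^ (b * m) = 4 * R by rw [hR]; ring] at h3
      exact h3
    have h4 : 4 * R * ‖th X w.2.1 i‖ ≤ K2 * Λ := by
      calc 4 * R * ‖th X w.2.1 i‖ ≤ 4 * R * (l * C1 * x ^ (a * m)) :=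
            mul_le_mul_of_nonneg_left (hth _ _) (by positivity)
        _ = K2 * (x ^ (a * m) * x ^ (b * m)) := by rw [hR, hK2]; ring
        _ = K2 * x ^ M := by rw [hMx]
        _ ≤ K2 * Λ := mul_le_mul_of_nonneg_left hΛ1 hK20
    calc _ ≤ Real.exp (K1 * Λ) * Real.exp (K2 * Λ) :=
          mul_le_mul h2 (Real.exp_le_exp.mpr h4) (by positivity) (by positivity)
      _ = _ := by rw [← Real.exp_add]; ring_nf
  have htp : ∀ j : ℕ, j ≤ h ^ M → ‖t‖ ^ j ≤ Real.exp (Real.log T * Λ) := by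
    intro j hj
    have h3 := npow_le_La x M hx1 T hT1 0 j (by rw [hx]; exact_mod_cast hj)
    rw [pow_zero, mul_one, Nat.cast_zero, add_zero] at h3
    exact (pow_le_pow_left₀ (norm_nonneg _) hTt j).trans h3
  set Yb : ℝ := Real.exp (C3 * Λ) with hYbd
  have hYb1 : 1 ≤ Yb := Real.one_le_exp (by positivity)
  have hprodfac : ∀ (w : Un r l (h ^ M) (h ^ (a * m)) (h ^ M)),
      ‖t‖ ^ ((w.2.2 : ℕ)) * ∏ i, ((4 * R) ^ ((w.1 i : ℕ)) *
        Real.exp (4 * R * ‖th X w.2.1 i‖)) ≤ Yb := by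
    intro w
    calc _ ≤ Real.exp (Real.log T * Λ) * ∏ _i : Fin r, Real.exp ((K1 + K2) * Λ) :=
          mul_le_mul (htp _ w.2.2.2.le) (Finset.prod_le_prod (fun i _ => by positivity)
            fun i _ => hfac w i) (Finset.prod_nonneg fun i _ => by positivity) (by positivity)
      _ = Yb := by
          rw [Finset.prod_const, Finset.card_univ, Fintype.card_fin, ← Real.exp_nat_mul,
            ← Real.exp_add, hYbd, hC3]
          ring_nf
  -- the pigeonhole
  set V' : ℕ := 4 * h ^ (2 * M + 1) with hV'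
  set H : ℝ := x ^ (2 * M + 1) with hH
  have hhpos : 0 < h := by omega
  set av : (Fin r → Fin V') → Un r l (h ^ M) (h ^ (a * m)) (h ^ M) → ℂ := fun κ w =>
    t ^ (w.2.2 : ℕ) * (∏ i, tc (w.1 i) (th X w.2.1 i) (κ i)) *
      ((4 * R : ℝ) : ℂ) ^ (∑ i, (κ i : ℕ)) with hav
  have hnav : ∀ (κ : Fin r → ℕ) (w : Un r l (h ^ M) (h ^ (a * m)) (h ^ M)),
      ‖t‖ ^ (w.2.2 : ℕ) * (∏ i, ‖tc (w.1 i) (th X w.2.1 i) (κ i)‖) *
      (4 * R) ^ (∑ i, (κ i : ℕ)) ≤ Yb := by
    intro κ w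
    calc ‖t‖ ^ (w.2.2 : ℕ) * (∏ i, ‖tc (w.1 i) (th X w.2.1 i) (κ i)‖) *
          (4 * R) ^ (∑ i, (κ i : ℕ))
        = ‖t‖ ^ (w.2.2 : ℕ) * ∏ i, (‖tc (w.1 i) (th X w.2.1 i) (κ i)‖ * (4 * R) ^ (κ i)) := by
          rw [Finset.prod_mul_distrib, Finset.prod_pow_eq_pow_sum]; ring
      _ ≤ ‖t‖ ^ (w.2.2 : ℕ) * ∏ i, ((4 * R) ^ ((w.1 i : ℕ)) *
          Real.exp (4 * R * ‖th X w.2.1 i‖)) :=
          mul_le_mul_of_nonneg_left (Finset.prod_le_prod (fun i _ => by positivity)
            fun i _ => hTCB _ _ _ _ (by positivity)) (by positivity)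
      _ ≤ Yb := hprodfac w
  have hcardU : Fintype.card (Un r l (h ^ M) (h ^ (a * m)) (h ^ M)) = h ^ E := by
    simp only [Un, Fintype.card_prod, Fintype.card_pi, Fintype.card_fin, Finset.prod_const,
      Finset.card_univ]
    rw [hE, ← pow_mul, ← pow_mul, ← pow_add, ← pow_add]
    congr 1
    ring
  have hcardV : Fintype.card (Fin r → Fin V') = V' ^ r := by simp
  have hV'pos : 0 < V' := by positivity
  have hcount : 2 * ((3 * h ^ (M + 1)) + 1) * Fintype.card (Fin r → Fin V') ≤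
      Fintype.card (Un r l (h ^ M) (h ^ (a * m)) (h ^ M)) := by
    rw [hcardU, hcardV, hV', mul_pow, ← pow_mul]
    have h2 : 1 ≤ h ^ (M + 1) := Nat.one_le_pow _ _ hhpos
    have h3 : M + 2 + (2 * M + 1) * r ≤ E := by
      have h4 : m * ((a + b) * r + 1) ≤ m * (a * l) := Nat.mul_le_mul_left _ hab
      have h5 : m * ((a + b) * r + 1) = M * r + m := by rw [hM]; ring
      have h6 : m * (a * l) = a * m * l := by ring
      rw [h5, h6] at h4
      rw [hE]
      have h7 : (2 * M + 1) * r = 2 * (M * r) + r := by ring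
      omega
    calc 2 * (3 * h ^ (M + 1) + 1) * (4 ^ r * h ^ ((2 * M + 1) * r))
        ≤ 8 * h ^ (M + 1) * (4 ^ r * h ^ ((2 * M + 1) * r)) :=
          Nat.mul_le_mul_right _ (by omega)
      _ = (8 * 4 ^ r) * h ^ (M + 1 + (2 * M + 1) * r) := by rw [pow_add h (M + 1)]; ring
      _ ≤ h * h ^ (M + 1 + (2 * M + 1) * r) := Nat.mul_le_mul_right _ hh2
      _ = h ^ (M + 2 + (2 * M + 1) * r) := by rw [← pow_succ']; congr 1; ring
      _ ≤ h ^ E := Nat.pow_le_pow_right hhpos h3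
  obtain ⟨p, Z, hp0, hZ1, hpZ, hZK, hpf⟩ := hPIG (Un r l (h ^ M) (h ^ (a * m)) (h ^ M))
    (Fin r → Fin V') av Yb (Real.exp (2 * H)) (3 * h ^ (M + 1)) hYb1
    (Real.one_le_exp (by positivity)) (by
      have : 1 ≤ h ^ (M + 1) := Nat.one_le_pow _ _ hhpos
      omega) (by rw [hcardV]; positivity) (by
      intro κ w
      rw [hav]
      simp only [norm_mul, norm_pow, norm_prod, Complex.norm_real, Real.norm_eq_abs]
      rw [abs_of_nonneg (show (0:ℝ) ≤ R by linarith)]
      have := hnav (fun i => (κ i : ℕ)) w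
      simpa using this) hcount
  have hxE : x ^ E ≤ Real.exp (E * Λ) := pow_le_La x M hx1 E
  have hZ : Z ≤ Real.exp (x ^ M) := by
    by_contra hcon
    push Not at hcon
    have h2 : Real.exp (x ^ M) ^ (3 * h ^ (M + 1)) < Z ^ (3 * h ^ (M + 1)) :=
      pow_lt_pow_left₀ hcon (by positivity) (by positivity)
    have h3 : Real.exp (x ^ M) ^ (3 * h ^ (M + 1)) = Real.exp (3 * H) := by
      rw [← Real.exp_nat_mul]
      congr 1
      rw [hH, hx]
      push_cast
      ring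
    have h4 : 4 * (Fintype.card (Un r l (h ^ M) (h ^ (a * m)) (h ^ M)) : ℝ) *
        (Real.exp (2 * H) * Yb) ≤ Real.exp (3 * H) := by
      rw [hcardU]
      push_cast
      rw [← hx]
      have h5 : (4:ℝ) ≤ Real.exp (4 * Λ) := by
        have := Real.add_one_le_exp (4 * Λ)
        nlinarith
      calc 4 * x ^ E * (Real.exp (2 * H) * Yb)
          ≤ Real.exp (4 * Λ) * Real.exp (E * Λ) * (Real.exp (2 * H) * Real.exp (C3 * Λ)) := by
            gcongr
        _ = Real.exp ((4 + E + C3) * Λ + 2 * H) := by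
            rw [← Real.exp_add, ← Real.exp_add, ← Real.exp_add]; ring_nf
        _ ≤ Real.exp (3 * H) := by
            refine Real.exp_le_exp.mpr ?_
            have h6 : (4 + E + C3) * Λ ≤ C5 * Λ := by
              refine mul_le_mul_of_nonneg_right ?_ (by linarith)
              rw [hC5]
              have : (0:ℝ) ≤ r := by positivity
              linarith
            linarith
    linarith [h3 ▸ h2]
  refine ⟨p, hp0, fun w => (hpZ w).trans (by exact_mod_cast hZ), fun τ hτ s hs => ?_⟩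
  rw [hVLP]
  set ε : ℝ := 4 * x ^ E * Z / Real.exp (2 * H) with hε
  have hε0 : 0 ≤ ε := by positivity
  have hSM := hSML r (Un r l (h ^ M) (h ^ (a * m)) (h ^ M))
    (fun w => (p w : ℂ) * t ^ (w.2.2 : ℕ)) (fun w i => (w.1 i : ℕ)) (fun w i => th X w.2.1 i)
    τ (fun i => ∑ j, Y i j * (s j : ℂ)) R ε (x ^ E * Real.exp (x ^ M) * Yb) V' hR1 hε0
    (by
      intro i
      calc ‖∑ j, Y i j * (s j : ℂ)‖ ≤ ∑ j, ‖Y i j * (s j : ℂ)‖ := norm_sum_le _ _
        _ ≤ ∑ _j : Fin c, C1 * ((r + l) * x ^ (b * m)) := by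
            refine Finset.sum_le_sum fun j _ => ?_
            rw [norm_mul]
            refine mul_le_mul (hYb i j) ?_ (norm_nonneg _) (by positivity)
            rw [Complex.norm_intCast, abs_of_nonneg (by exact_mod_cast (hs j).1)]
            rw [hx]
            exact_mod_cast (hs j).2
        _ = c * C1 * (r + l) * x ^ (b * m) := by
            rw [Finset.sum_const, Finset.card_univ, Fintype.card_fin, nsmul_eq_mul]; ring
        _ ≤ R := by
            rw [hR, hc0]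
            have : 0 ≤ x ^ (b * m) := by positivity
            nlinarith)
    (by
      intro κ hκ
      have h2 := hpf (fun i => ⟨κ i, hκ i⟩)
      rw [hav] at h2
      simp only at h2
      have hcU : (Fintype.card (Un r l (h ^ M) (h ^ (a * m)) (h ^ M)) : ℝ) = x ^ E := by
        rw [hcardU]; push_cast; rfl
      rw [hcU] at h2
      rw [hε, le_div_iff₀ (Real.exp_pos _), mul_comm _ (Real.exp (2 * H))]
      refine le_trans (le_of_eq ?_) h2
      congr 1
      have h3 : ‖∑ w : Un r l (h ^ M) (h ^ (a * m)) (h ^ M), (p w : ℂ) * t ^ (w.2.2 : ℕ) *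
          ∏ i, tc (w.1 i) (th X w.2.1 i) (κ i)‖ * (4 * R) ^ (∑ i, κ i) =
          ‖(∑ w : Un r l (h ^ M) (h ^ (a * m)) (h ^ M), (p w : ℂ) * t ^ (w.2.2 : ℕ) *
          ∏ i, tc (w.1 i) (th X w.2.1 i) (κ i)) * ((4 * R : ℝ) : ℂ) ^ (∑ i, κ i)‖ := by
        rw [norm_mul, norm_pow, Complex.norm_real, Real.norm_eq_abs,
          abs_of_nonneg (by positivity : (0:ℝ) ≤ 4 * R)]
      rw [h3, Finset.sum_mul]
      congr 1
      refine Finset.sum_congr rfl fun w _ => ?_
      ring)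
    (by
      calc _ ≤ ∑ _w : Un r l (h ^ M) (h ^ (a * m)) (h ^ M), Real.exp (x ^ M) * Yb := by
            refine Finset.sum_le_sum fun w _ => ?_
            rw [norm_mul, norm_pow, Complex.norm_intCast, mul_assoc]
            exact mul_le_mul ((hpZ w).trans hZ) (hprodfac w) (by
              refine mul_nonneg (by positivity) (Finset.prod_nonneg fun i _ => by positivity))
              (by positivity)
        _ = x ^ E * Real.exp (x ^ M) * Yb := by
            rw [Finset.sum_const, Finset.card_univ, hcardU, nsmul_eq_mul]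
            push_cast
            rw [← hx]; ring)
  refine hSM.trans ?_
  have hr0 : (0:ℝ) ≤ r := by positivity
  have hl0 : (0:ℝ) ≤ l := by positivity
  have hΛ0 : 0 ≤ Λ := by linarith
  -- the factorials
  have hτf : ∏ i, ((τ i).factorial : ℝ) ≤ Real.exp (C4 * Λ) := by
    have h2 : ∀ i, ((τ i).factorial : ℝ) ≤
        Real.exp ((r + l) * ((Real.log (r + l + 1) + M) * Λ)) := by
      intro i
      have h3 : (τ i).factorial ≤ ((r + l) * h ^ M) ^ ((r + l) * h ^ M) :=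
        (Nat.factorial_le (hτ i)).trans (Nat.factorial_le_pow _)
      have h4 : ((τ i).factorial : ℝ) ≤ ((((r:ℝ) + l + 1) * x ^ M) ^ (h ^ M)) ^ (r + l) := by
        calc ((τ i).factorial : ℝ) ≤ (((r:ℝ) + l) * x ^ M) ^ ((r + l) * h ^ M) := by
              rw [hx]; exact_mod_cast h3
          _ ≤ (((r:ℝ) + l + 1) * x ^ M) ^ ((r + l) * h ^ M) :=
              pow_le_pow_left₀ (by positivity) (mul_le_mul_of_nonneg_right (by linarith)
                (by positivity)) _
          _ = _ := by rw [← pow_mul]; congr 1; ring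
      have h5 : (((r:ℝ) + l + 1) * x ^ M) ^ (h ^ M) ≤
          Real.exp ((Real.log ((r:ℝ) + l + 1) + M) * Λ) :=
        npow_le_La x M hx1 ((r:ℝ) + l + 1) (by linarith) M (h ^ M) (by
          rw [hx]; push_cast; exact le_refl _)
      refine h4.trans ((pow_le_pow_left₀ (by positivity) h5 _).trans (le_of_eq ?_))
      rw [← Real.exp_nat_mul]
      push_cast
      rfl
    calc ∏ i, ((τ i).factorial : ℝ) ≤
          ∏ _i : Fin r, Real.exp ((r + l) * ((Real.log (r + l + 1) + M) * Λ)) :=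
          Finset.prod_le_prod (fun i _ => by positivity) fun i _ => h2 i
      _ = Real.exp (C4 * Λ) := by
          rw [Finset.prod_const, Finset.card_univ, Fintype.card_fin, ← Real.exp_nat_mul, hC4]
          ring_nf
  have h2r : (2:ℝ) ^ r ≤ Real.exp (r * Λ) := by
    have h3 : (2:ℝ) ≤ Real.exp Λ := by
      have := Real.add_one_le_exp Λ
      linarith
    calc (2:ℝ) ^ r ≤ Real.exp Λ ^ r := pow_le_pow_left₀ (by norm_num) h3 _
      _ = _ := by rw [← Real.exp_nat_mul]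
  have h1r : 1 + (r:ℝ) ≤ Real.exp (r * Λ) := by
    have := Real.add_one_le_exp (r * Λ)
    nlinarith
  have hhalf : (1 / 2 : ℝ) ^ V' ≤ Real.exp (-(2 * H)) := by
    have h3 : (1 / 2 : ℝ) ≤ Real.exp (-(1 / 2)) := by
      have := Real.add_one_le_exp (-(1 / 2 : ℝ))
      linarith
    calc (1 / 2 : ℝ) ^ V' ≤ Real.exp (-(1 / 2)) ^ V' := pow_le_pow_left₀ (by norm_num) h3 _
      _ = _ := by
          rw [← Real.exp_nat_mul]
          congr 1
          rw [hV', hH, hx]
          push_cast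
          ring
  have h4e : (4:ℝ) ≤ Real.exp (4 * Λ) := by
    have := Real.add_one_le_exp (4 * Λ)
    linarith
  have hZΛ : Z ≤ Real.exp (1 * Λ) := hZ.trans (Real.exp_le_exp.mpr (by linarith))
  have hxM : Real.exp (x ^ M) ≤ Real.exp (1 * Λ) := Real.exp_le_exp.mpr (by linarith)
  have hεb : ε ≤ Real.exp (-(2 * H)) * Real.exp ((5 + E + C3) * Λ) := by
    rw [hε, div_eq_mul_inv, ← Real.exp_neg]
    have h5 : 4 * x ^ E * Z ≤ Real.exp ((5 + E + C3) * Λ) := by
      calc 4 * x ^ E * Z ≤ Real.exp (4 * Λ) * Real.exp (E * Λ) * Real.exp (1 * Λ) := by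
            gcongr
        _ = Real.exp ((5 + E) * Λ) := by rw [← Real.exp_add, ← Real.exp_add]; ring_nf
        _ ≤ _ := Real.exp_le_exp.mpr (mul_le_mul_of_nonneg_right (by linarith) hΛ0)
    calc _ ≤ Real.exp ((5 + E + C3) * Λ) * Real.exp (-(2 * H)) :=
          mul_le_mul_of_nonneg_right h5 (Real.exp_pos _).le
      _ = _ := by ring
  have hYbb : x ^ E * Real.exp (x ^ M) * Yb ≤ Real.exp ((5 + E + C3) * Λ) := by
    calc x ^ E * Real.exp (x ^ M) * Yb ≤ Real.exp (E * Λ) * Real.exp (1 * Λ) *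
          Real.exp (C3 * Λ) := by gcongr
      _ = Real.exp ((1 + E + C3) * Λ) := by rw [← Real.exp_add, ← Real.exp_add]; ring_nf
      _ ≤ _ := Real.exp_le_exp.mpr (mul_le_mul_of_nonneg_right (by linarith) hΛ0)
  calc (∏ i, ((τ i).factorial : ℝ)) * (2 ^ r * (ε + r * (1 / 2) ^ V' *
        (x ^ E * Real.exp (x ^ M) * Yb)))
      ≤ Real.exp (C4 * Λ) * (Real.exp (r * Λ) * (Real.exp (-(2 * H)) *
        Real.exp ((5 + E + C3) * Λ) + r * Real.exp (-(2 * H)) *
        Real.exp ((5 + E + C3) * Λ))) := by gcongr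
    _ = Real.exp (C4 * Λ) * (Real.exp (r * Λ) * (Real.exp (-(2 * H)) *
        Real.exp ((5 + E + C3) * Λ) * (1 + r))) := by ring
    _ ≤ Real.exp (C4 * Λ) * (Real.exp (r * Λ) * (Real.exp (-(2 * H)) *
        Real.exp ((5 + E + C3) * Λ) * Real.exp (r * Λ))) := by gcongr
    _ = Real.exp (-(2 * H) + (C3 + C4 + E + (2 * r + 5)) * Λ) := by
        rw [← Real.exp_add, ← Real.exp_add, ← Real.exp_add, ← Real.exp_add]
        ring_nf
    _ ≤ Real.exp (-H) := by
        refine Real.exp_le_exp.mpr ?_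
        have h6 : (C3 + C4 + E + (2 * r + 5)) * Λ ≤ C5 * Λ :=
          mul_le_mul_of_nonneg_right (by rw [hC5]; linarith) hΛ0
        linarith

end Pool.Agent.H64.TD1
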